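import Pool.Agent.Helper48.AA.Goals
import Mathlib

/-!
# Packet RLA of project AA (MP_6c0525_nt)
-/

set_option autoImplicit false

open Finset

open scoped Classical

namespace Pool.Agent.Helper8.AA

open Pool.Agent.Helper48.AA

theorem cb_rec {q : ℕ} (a s : ℕ) :
    (Nat.centralBinom (a + s) : ZMod q) * ∏ i ∈ range s, ((a : ZMod q) + ((i : ZMod q) + 1)) =
      (Nat.centralBinom a : ZMod q) *
        ∏ i ∈ range s, (4 * (a : ZMod q) + (4 * (i : ZMod q) + 2)) := by
  induction s with
  | zero => simp
  | succ s ih =>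
    have h := Nat.succ_mul_centralBinom_succ (a + s)
    have h2 : ((a : ZMod q) + s + 1) * (Nat.centralBinom (a + s + 1) : ZMod q) =
        (2 * (2 * ((a : ZMod q) + s) + 1)) * (Nat.centralBinom (a + s) : ZMod q) := by
      have := congrArg (Nat.cast : ℕ → ZMod q) h
      push_cast at this
      exact this
    rw [prod_range_succ, prod_range_succ, ← add_assoc a s 1]
    calc (Nat.centralBinom (a + s + 1) : ZMod q) *
          ((∏ i ∈ range s, ((a : ZMod q) + ((i : ZMod q) + 1))) * ((a : ZMod q) + ((s : ZMod q) + 1)))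
        = (((a : ZMod q) + s + 1) * (Nat.centralBinom (a + s + 1) : ZMod q)) *
          (∏ i ∈ range s, ((a : ZMod q) + ((i : ZMod q) + 1))) := by ring
      _ = (2 * (2 * ((a : ZMod q) + s) + 1)) * ((Nat.centralBinom (a + s) : ZMod q) *
          (∏ i ∈ range s, ((a : ZMod q) + ((i : ZMod q) + 1)))) := by rw [h2]; ring
      _ = _ := by rw [ih]; ring

/-- `∏ (4X + 4i + 2)` -/
noncomputable def Apol (q s : ℕ) : Polynomial (ZMod q) :=
  ∏ i ∈ range s, (4 * Polynomial.X + Polynomial.C (4 * (i : ZMod q) + 2))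

/-- `∏ (X + i + 1)` -/
noncomputable def Bpol (q s : ℕ) : Polynomial (ZMod q) :=
  ∏ i ∈ range s, (Polynomial.X + Polynomial.C ((i : ZMod q) + 1))

theorem eval_Apol (q s : ℕ) (x : ZMod q) :
    (Apol q s).eval x = ∏ i ∈ range s, (4 * x + (4 * (i : ZMod q) + 2)) := by
  unfold Apol
  rw [Polynomial.eval_prod]
  refine prod_congr rfl fun i _ => ?_
  have h4 : (4 : Polynomial (ZMod q)) = Polynomial.C 4 := (map_ofNat Polynomial.C 4).symm
  rw [h4, Polynomial.eval_add, Polynomial.eval_mul, Polynomial.eval_C, Polynomial.eval_X,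
    Polynomial.eval_C]

theorem eval_Bpol (q s : ℕ) (x : ZMod q) :
    (Bpol q s).eval x = ∏ i ∈ range s, (x + ((i : ZMod q) + 1)) := by
  unfold Bpol
  rw [Polynomial.eval_prod]
  refine prod_congr rfl fun i _ => ?_
  rw [Polynomial.eval_add, Polynomial.eval_X, Polynomial.eval_C]

theorem natDegree_Apol (q s : ℕ) : (Apol q s).natDegree ≤ s := by
  unfold Apol
  refine (Polynomial.natDegree_prod_le _ _).trans ?_
  refine (sum_le_sum (g := fun _ => 1) fun i _ => ?_).trans (by simp)
  have h4 : (4 : Polynomial (ZMod q)) = Polynomial.C 4 := (map_ofNat Polynomial.C 4).symm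
  rw [h4]
  exact Polynomial.natDegree_linear_le

theorem natDegree_Bpol (q s : ℕ) : (Bpol q s).natDegree ≤ s := by
  unfold Bpol
  refine (Polynomial.natDegree_prod_le _ _).trans ?_
  refine (sum_le_sum (g := fun _ => 1) fun i _ => ?_).trans (by simp)
  refine (Polynomial.natDegree_add_le _ _).trans ?_
  rw [Polynomial.natDegree_C]
  exact max_le Polynomial.natDegree_X_le (Nat.zero_le _)

theorem pol_ne_zero {q s : ℕ} [Fact q.Prime] (hs : 1 ≤ s) (hq : 2 * s + 2 ≤ q) :
    Apol q s - Bpol q s ≠ 0 := by
  intro h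
  have h2 : (2 : ZMod q) ≠ 0 := by
    intro h
    have : ((2 : ℕ) : ZMod q) = 0 := by exact_mod_cast h
    rw [ZMod.natCast_eq_zero_iff] at this
    have := Nat.le_of_dvd (by norm_num) this
    omega
  set x : ZMod q := -(2 : ZMod q)⁻¹ with hx
  have hx2 : 2 * x = -1 := by
    rw [hx, mul_neg, mul_inv_cancel₀ h2]
  have he : (Apol q s - Bpol q s).eval x = 0 := by rw [h, Polynomial.eval_zero]
  rw [Polynomial.eval_sub, eval_Apol, eval_Bpol] at he
  have hA : ∏ i ∈ range s, (4 * x + (4 * (i : ZMod q) + 2)) = 0 := by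
    refine prod_eq_zero (i := 0) (mem_range.2 (by omega)) ?_
    have : (4 : ZMod q) * x = 2 * (2 * x) := by ring
    rw [this, hx2]
    push_cast
    ring
  rw [hA, zero_sub, neg_eq_zero, prod_eq_zero_iff] at he
  obtain ⟨i, hi, hi0⟩ := he
  rw [mem_range] at hi
  have h3 : ((2 * i + 1 : ℕ) : ZMod q) = 0 := by
    have : (2 : ZMod q) * (x + ((i : ZMod q) + 1)) = 0 := by rw [hi0, mul_zero]
    push_cast
    linear_combination this - hx2
  rw [ZMod.natCast_eq_zero_iff] at h3
  have := Nat.le_of_dvd (by omega) h3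
  omega

theorem card_pairs {q s len b : ℕ} [Fact q.Prime] (hs : 1 ≤ s) (hq : 2 * s + 2 ≤ q)
    (hlen : len ≤ q) (hb : ¬ q ∣ b) :
    ((range len).filter (fun a => Nat.centralBinom a ≡ b [MOD q] ∧
      Nat.centralBinom (a + s) ≡ b [MOD q])).card ≤ s := by
  have hp := pol_ne_zero (q := q) hs hq
  have hb0 : (b : ZMod q) ≠ 0 := by
    intro h
    rw [ZMod.natCast_eq_zero_iff] at h
    exact hb h
  calc _ ≤ ((Apol q s - Bpol q s).roots.toFinset).card := by
        refine card_le_card_of_injOn (fun a => (a : ZMod q)) ?_ ?_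
        · intro a ha
          have ha' := mem_coe.1 ha
          rw [mem_filter] at ha'
          obtain ⟨_, h1, h2⟩ := ha'
          have h1' : (Nat.centralBinom a : ZMod q) = b := (ZMod.natCast_eq_natCast_iff _ _ _).2 h1
          have h2' : (Nat.centralBinom (a + s) : ZMod q) = b :=
            (ZMod.natCast_eq_natCast_iff _ _ _).2 h2
          have hr := cb_rec (q := q) a s
          rw [h1', h2'] at hr
          have hr' := mul_left_cancel₀ hb0 hr
          rw [mem_coe, Multiset.mem_toFinset, Polynomial.mem_roots hp, Polynomial.IsRoot.def,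
            Polynomial.eval_sub, eval_Apol, eval_Bpol, hr', sub_self]
        · intro a ha a' ha' h
          have h1 := mem_range.1 (mem_filter.1 (mem_coe.1 ha)).1
          have h2 := mem_range.1 (mem_filter.1 (mem_coe.1 ha')).1
          have h3 : a ≡ a' [MOD q] := (ZMod.natCast_eq_natCast_iff _ _ _).1 h
          exact Nat.ModEq.eq_of_lt_of_lt h3 (by omega) (by omega)
    _ ≤ (Apol q s - Bpol q s).roots.card := Multiset.toFinset_card_le _
    _ ≤ (Apol q s - Bpol q s).natDegree := Polynomial.card_roots' _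
    _ ≤ max (Apol q s).natDegree (Bpol q s).natDegree := Polynomial.natDegree_sub_le _ _
    _ ≤ s := max_le (natDegree_Apol q s) (natDegree_Bpol q s)

theorem card_sep {U : Finset ℕ} {S len : ℕ} (hS : 1 ≤ S) (hU : ∀ a ∈ U, a < len)
    (hsep : ∀ a ∈ U, ∀ s, 1 ≤ s → s < S → a + s ∉ U) : U.card ≤ len / S + 1 := by
  calc U.card ≤ (range (len / S + 1)).card := by
        refine card_le_card_of_injOn (fun a => a / S) ?_ ?_
        · intro a ha
          have := hU a (mem_coe.1 ha)
          rw [mem_coe, mem_range]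
          exact Nat.lt_succ_of_le (Nat.div_le_div_right this.le)
        · have key : ∀ a ∈ U, ∀ a' ∈ U, a / S = a' / S → a < a' → False := by
            intro a ha a' ha' h hlt
            refine hsep a ha (a' - a) (by omega) ?_ ?_
            · have h1 := Nat.div_add_mod a S
              have h2 := Nat.div_add_mod a' S
              have h3 := Nat.mod_lt a' (show S > 0 by omega)
              rw [h] at h1
              omega
            · rw [show a + (a' - a) = a' by omega]
              exact ha'
          intro a ha a' ha' h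
          rcases lt_trichotomy a a' with hlt | heq | hgt
          · exact (key a (mem_coe.1 ha) a' (mem_coe.1 ha') h hlt).elim
          · exact heq
          · exact (key a' (mem_coe.1 ha') a (mem_coe.1 ha) h.symm hgt).elim
    _ = len / S + 1 := card_range _

theorem gRLA : StmtRLA := by
  intro q S len b hq hS hSq hlen hb
  have : Fact q.Prime := ⟨hq⟩
  have hq2 := hq.two_le
  set U := (range len).filter (fun a => Nat.centralBinom a ≡ b [MOD q]) with hU
  set U1 := U.filter (fun a => ∀ s, 1 ≤ s → s < S → a + s ∉ U) with hU1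
  have hsub : U ⊆ U1 ∪ (range S).biUnion (fun s => if 1 ≤ s then
      (range len).filter (fun a => Nat.centralBinom a ≡ b [MOD q] ∧
        Nat.centralBinom (a + s) ≡ b [MOD q]) else ∅) := by
    intro a ha
    by_cases h : ∀ s, 1 ≤ s → s < S → a + s ∉ U
    · exact mem_union_left _ (mem_filter.2 ⟨ha, h⟩)
    · push Not at h
      obtain ⟨s, h1, h2, h3⟩ := h
      refine mem_union_right _ (mem_biUnion.2 ⟨s, mem_range.2 h2, ?_⟩)
      rw [if_pos h1, mem_filter]
      exact ⟨(mem_filter.1 ha).1, (mem_filter.1 ha).2, (mem_filter.1 h3).2⟩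
  have hc1 : U1.card ≤ len / S + 1 := by
    refine card_sep hS (fun a ha => mem_range.1 (mem_filter.1 (mem_filter.1 ha).1).1) ?_
    intro a ha s h1 h2 h3
    exact (mem_filter.1 ha).2 s h1 h2 (mem_filter.1 h3).1
  have hc2 : ((range S).biUnion (fun s => if 1 ≤ s then
      (range len).filter (fun a => Nat.centralBinom a ≡ b [MOD q] ∧
        Nat.centralBinom (a + s) ≡ b [MOD q]) else ∅)).card ≤ S ^ 2 := by
    refine card_biUnion_le.trans ?_
    refine (sum_le_sum (g := fun _ => S) fun s hs => ?_).trans ?_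
    · have hs' := mem_range.1 hs
      by_cases h1 : 1 ≤ s
      · rw [if_pos h1]
        exact (card_pairs h1 (by omega) (by omega) hb).trans hs'.le
      · rw [if_neg h1]
        simp
    · rw [sum_const, card_range, smul_eq_mul, pow_two]
  calc U.card ≤ _ := card_le_card hsub
    _ ≤ U1.card + _ := card_union_le _ _
    _ ≤ len / S + 1 + S ^ 2 := Nat.add_le_add hc1 hc2

end Pool.Agent.Helper8.AA
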